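import Pool.Agent.Helper12.MA.StB
import Pool.Agent.Helper12.MA.Lib

/-!
# Project MA, module SPB: basic facts on separations with one crossing edge
-/

set_option autoImplicit false

namespace Pool.Agent.Helper99.MA

open Pool.Agent.Helper12.MA
open Pool.Agent.Helper51.AJ (IsMinor Planar Apex ExMinor Con Tch)
open Pool.Agent.Helper12.NK (rst Kc add cnt Pcy IsFace Cof plus)

variable {V : Type}

private theorem spb_symm {G : SimpleGraph V} {Q L R : Set V} {x y : V} (h : Sep G Q x y L R) :
    Sep G Q y x R L where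
  card := h.card
  cov := by rw [Set.union_comm]; exact h.cov
  dis := h.dis.symm
  xL := h.yR
  yR := h.xL
  adj := h.adj.symm
  only := fun a ha b hb hab => by
    have e := h.only b hb a ha hab.symm
    exact ⟨e.2, e.1⟩

private theorem spb_yQ {G : SimpleGraph V} {Q L R : Set V} {x y : V} (h : Sep G Q x y L R) : y ∉ Q := by
  have h1 : y ∈ L ∪ R := Or.inr h.yR
  rw [h.cov] at h1
  exact h1

private theorem spb_yL {G : SimpleGraph V} {Q L R : Set V} {x y : V} (h : Sep G Q x y L R) : y ∉ L :=
  fun h1 => Set.disjoint_left.1 h.dis h1 h.yR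

private theorem spb_cases {G : SimpleGraph V} {Q L R : Set V} {x y : V} (h : Sep G Q x y L R) (b : V) :
    b ∈ L ∨ b ∈ R ∨ b ∈ Q := by
  by_cases hb : b ∈ Q
  · exact Or.inr (Or.inr hb)
  · have h1 : b ∈ L ∪ R := by rw [h.cov]; exact hb
    rcases h1 with h1 | h1
    · exact Or.inl h1
    · exact Or.inr (Or.inl h1)

private theorem spb_con [Finite V] {G : SimpleGraph V} {Q L R : Set V} {x y : V}
    (h6 : ∀ A : Set V, A.Nonempty → (Nb G A).ncard ≤ 4 → A ∪ Nb G A = Set.univ)
    (h : Sep G Q x y L R) : Con G L := by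
  classical
  by_contra hcon
  let C : Set V := {a | ∃ ha : a ∈ L, ¬ (G.induce L).Reachable ⟨x, h.xL⟩ ⟨a, ha⟩}
  have hCne : C.Nonempty := by
    by_contra hne
    rw [Set.not_nonempty_iff_eq_empty] at hne
    apply hcon
    have hreach : ∀ a : L, (G.induce L).Reachable ⟨x, h.xL⟩ a := by
      intro a
      by_contra ha
      have h1 : a.1 ∈ C := ⟨a.2, ha⟩
      rw [hne] at h1
      exact h1
    refine (SimpleGraph.connected_iff _).2 ⟨fun a b => (hreach a).symm.trans (hreach b), ⟨⟨x, h.xL⟩⟩⟩
  have hNb : Nb G C ⊆ Q := by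
    rintro b ⟨hb, a, ⟨haL, ha⟩, hab⟩
    rcases spb_cases h b with hbL | hbR | hbQ
    · exfalso
      apply hb
      refine ⟨hbL, fun hr => ha (hr.trans ?_)⟩
      apply SimpleGraph.Adj.reachable
      exact hab.symm
    · exfalso
      have e := (h.only a haL b hbR hab).1
      subst e
      exact ha (SimpleGraph.Reachable.refl _)
    · exact hbQ
  have h4 : (Nb G C).ncard ≤ 4 := by
    rw [← h.card]
    exact Set.ncard_le_ncard hNb
  have hu := h6 C hCne h4
  have hy : y ∈ C ∪ Nb G C := by rw [hu]; exact Set.mem_univ _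
  rcases hy with hy | hy
  · exact spb_yL h hy.1
  · exact spb_yQ h (hNb hy)

/-- **Module SPB.** -/
theorem hSPB : StBAS → StSPB := by
  intro hBAS V _ G Q L R x y hG hS
  obtain ⟨-, -, -, h5, -, h6, -⟩ := hBAS V G hG
  refine ⟨spb_con h6 hS, spb_con h6 (spb_symm hS), spb_symm hS, ?_, ?_⟩
  · intro hL
    have hyx : y ≠ x := hS.adj.ne'
    have hne : (L \ {x}).Nonempty := by
      by_contra hne
      rw [Set.not_nonempty_iff_eq_empty, Set.sdiff_eq_empty] at hne
      exact hL (Set.Subset.antisymm hne (Set.singleton_subset_iff.2 hS.xL))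
    have hsub : Nb G (L \ {x}) ⊆ insert x Q := by
      rintro b ⟨hb, a, ⟨haL, hax⟩, hab⟩
      rcases spb_cases hS b with hbL | hbR | hbQ
      · by_cases hbx : b = x
        · exact Or.inl hbx
        · exact absurd ⟨hbL, hbx⟩ hb
      · exact absurd (hS.only a haL b hbR hab).1 hax
      · exact Or.inr hbQ
    have hcard : (insert x Q).ncard ≤ 5 := by
      have := Set.ncard_insert_le x Q
      rw [hS.card] at this
      exact this
    refine Set.eq_of_subset_of_ncard_le hsub ?_
    by_contra hlt
    have h4 : (Nb G (L \ {x})).ncard ≤ 4 := by omega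
    have hu := h6 _ hne h4
    have hy : y ∈ L \ {x} ∪ Nb G (L \ {x}) := by rw [hu]; exact Set.mem_univ _
    rcases hy with hy | hy
    · exact spb_yL hS hy.1
    · rcases hsub hy with hy | hy
      · exact hyx hy
      · exact spb_yQ hS hy
  · intro hL
    have hsub : {a | G.Adj x a} ⊆ insert y Q := by
      intro b hb
      have hb' : G.Adj x b := hb
      rcases spb_cases hS b with hbL | hbR | hbQ
      · rw [hL, Set.mem_singleton_iff] at hbL
        exact absurd hbL.symm hb'.ne
      · exact Or.inl (hS.only x hS.xL b hbR hb').2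
      · exact Or.inr hbQ
    have hcard : (insert y Q).ncard ≤ 5 := by
      have := Set.ncard_insert_le y Q
      rw [hS.card] at this
      exact this
    have heq : {a | G.Adj x a} = insert y Q :=
      Set.eq_of_subset_of_ncard_le hsub (le_trans hcard (h5 x))
    intro c
    have : c ∈ {a | G.Adj x a} ↔ c ∈ insert y Q := by rw [heq]
    exact this

end Pool.Agent.Helper99.MA
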